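import Pool.Agent.W289.ZS.Stm

/-!
Project ZS, part T5: the pieces of a complex are complexes.
-/

namespace Pool.Agent.W828.ZS

open Finset
open W289.ZS

set_option linter.unusedSectionVars false

universe u v

section

variable {ι : Type u} {V : Type v} [Fintype ι] [DecidableEq ι] [DecidableEq V]
variable {D : Dat ι V} {A : Finset ι} {X : Finset (ι → V)} {r : ι → V}

theorem down_self (i : ι) (v : ι → V) : D.down i v i = D.par i (v i) := by
  simp [Dat.down]

theorem down_ne {i j : ι} (h : j ≠ i) (v : ι → V) : D.down i v j = v j := by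
  simp [Dat.down, Function.update_of_ne h]

theorem lower (H : Cpx D A X r) (q : ι) : ∀ (n : ℕ) (v : ι → V), v ∈ X →
    ∑ i ∈ A.erase q, D.dep i (v i) ≤ n → Function.update r q (v q) ∈ X := by
  intro n
  induction n with
  | zero =>
    intro v hv h0
    have h1 : ∀ i ∈ A.erase q, D.dep i (v i) = 0 := by
      have : ∑ i ∈ A.erase q, D.dep i (v i) = 0 := by omega
      exact Finset.sum_eq_zero_iff.1 this
    have h2 : Function.update r q (v q) = v := by
      funext i
      by_cases hi : i = q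
      · subst hi; simp
      · rw [Function.update_of_ne hi]
        by_cases hA : i ∈ A
        · exact (H.dep_zero v hv i hA (h1 i (Finset.mem_erase.2 ⟨hi, hA⟩))).symm
        · exact (H.frozen v hv i hA).symm
    rw [h2]; exact hv
  | succ n ih =>
    intro v hv h0
    by_cases hz : ∑ i ∈ A.erase q, D.dep i (v i) = 0
    · exact ih v hv (by omega)
    · obtain ⟨i, hi, hd⟩ := Finset.exists_ne_zero_of_sum_ne_zero hz
      obtain ⟨hiq, hiA⟩ := Finset.mem_erase.1 hi
      have hd0 : 0 < D.dep i (v i) := Nat.pos_of_ne_zero hd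
      have h1 := H.down_mem v hv i hiA hd0
      have h2 := H.dep_par v hv i hiA hd0
      have h3 : D.down i v q = v q := down_ne (Ne.symm hiq) v
      rw [← h3]
      apply ih _ h1
      have h4 : ∑ j ∈ A.erase q, D.dep j (D.down i v j) < ∑ j ∈ A.erase q, D.dep j (v j) := by
        apply Finset.sum_lt_sum
        · intro j _
          by_cases hj : j = i
          · subst hj; rw [down_self]; omega
          · rw [down_ne hj]
        · exact ⟨i, hi, by rw [down_self]; omega⟩
      omega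

theorem upd_mem (H : Cpx D A X r) {q : ι} {b : ℕ} {Q : V} (hQ : Q ∈ Qs D q b X) :
    Function.update r q Q ∈ X ∧ D.dep q Q = b := by
  unfold Qs at hQ
  rw [Finset.mem_image] at hQ
  obtain ⟨v, hv, rfl⟩ := hQ
  obtain ⟨hv1, hv2⟩ := Finset.mem_filter.1 hv
  exact ⟨lower H q _ v hv1 le_rfl, hv2⟩

theorem col (H : Cpx D A X r) {q : ι} (hq : q ∈ A) {b : ℕ} {Q : V} (hQ : D.dep q Q = b)
    {u : ι → V} (hu : u ∈ YY q X Q) (j : ℕ) (hj : j ≤ b) :
    Function.update u q ((D.par q)^[j] Q) ∈ X ∧ D.dep q ((D.par q)^[j] Q) + j = b := by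
  obtain ⟨hu1, hu2⟩ := Finset.mem_filter.1 hu
  induction j with
  | zero =>
    refine ⟨?_, by simpa using hQ⟩
    have : Function.update u q ((D.par q)^[0] Q) = u := by
      simp only [Function.iterate_zero, id]
      rw [← hu2]
      exact Function.update_eq_self q u
    rw [this]; exact hu1
  | succ j ih =>
    obtain ⟨h1, h2⟩ := ih (by omega)
    have h3 : Function.update u q ((D.par q)^[j] Q) q = (D.par q)^[j] Q := by simp
    have hd : 0 < D.dep q (Function.update u q ((D.par q)^[j] Q) q) := by rw [h3]; omega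
    have h4 := H.down_mem _ h1 q hq hd
    have h5 := H.dep_par _ h1 q hq hd
    rw [h3] at h5
    rw [Function.iterate_succ_apply']
    refine ⟨?_, by omega⟩
    have h6 : D.down q (Function.update u q ((D.par q)^[j] Q))
        = Function.update u q (D.par q ((D.par q)^[j] Q)) := by
      unfold Dat.down
      rw [h3, Function.update_idem]
    rw [← h6]; exact h4

theorem mem_ZZ {q : ι} {b : ℕ} {Q : V} {v : ι → V} :
    v ∈ ZZ D q b X Q ↔ ∃ u ∈ YY q X Q, ∃ j < b,
      Function.update u q ((D.par q)^[j + 1] Q) = v := by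
  unfold ZZ
  rw [Finset.mem_image]
  constructor
  · rintro ⟨⟨u, j⟩, h, rfl⟩
    obtain ⟨h1, h2⟩ := Finset.mem_product.1 h
    exact ⟨u, h1, j, Finset.mem_range.1 h2, rfl⟩
  · rintro ⟨u, h1, j, h2, rfl⟩
    exact ⟨(u, j), Finset.mem_product.2 ⟨h1, Finset.mem_range.2 h2⟩, rfl⟩

theorem ZZ_sub (H : Cpx D A X r) {q : ι} (hq : q ∈ A) {b : ℕ} {Q : V} (hQ : D.dep q Q = b)
    {v : ι → V} (hv : v ∈ ZZ D q b X Q) : v ∈ X ∧ D.dep q (v q) < b := by
  obtain ⟨u, hu, j, hj, rfl⟩ := mem_ZZ.1 hv
  obtain ⟨h1, h2⟩ := col H hq hQ hu (j + 1) hj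
  refine ⟨h1, ?_⟩
  rw [Function.update_self]
  omega

theorem Xlt_cpx (H : Cpx D A X r) {q : ι} (hq : q ∈ A) {b : ℕ} (hb : 1 ≤ b) :
    Cpx D A (Xlt D q b X) r := by
  constructor
  · refine Finset.mem_filter.2 ⟨H.root_mem, ?_⟩
    rw [H.root_dep q hq]; omega
  · exact H.root_dep
  · intro v hv i hi hd
    obtain ⟨h1, h2⟩ := Finset.mem_filter.1 hv
    refine Finset.mem_filter.2 ⟨H.down_mem v h1 i hi hd, ?_⟩
    by_cases hiq : q = i
    · subst hiq
      have := H.dep_par v h1 q hi hd
      rw [down_self]; omega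
    · rw [down_ne hiq]; exact h2
  · intro v hv i hi
    exact H.frozen v (Finset.mem_filter.1 hv).1 i hi
  · intro v hv i hi hd
    exact H.dep_zero v (Finset.mem_filter.1 hv).1 i hi hd
  · intro v hv i hi hd
    exact H.dep_par v (Finset.mem_filter.1 hv).1 i hi hd

theorem YY_cpx (H : Cpx D A X r) {q : ι} {Q : V} (hr : Function.update r q Q ∈ X) :
    Cpx D (A.erase q) (YY q X Q) (Function.update r q Q) := by
  constructor
  · exact Finset.mem_filter.2 ⟨hr, by simp⟩
  · intro i hi
    obtain ⟨hiq, hiA⟩ := Finset.mem_erase.1 hi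
    rw [Function.update_of_ne hiq]
    exact H.root_dep i hiA
  · intro v hv i hi hd
    obtain ⟨hiq, hiA⟩ := Finset.mem_erase.1 hi
    obtain ⟨h1, h2⟩ := Finset.mem_filter.1 hv
    refine Finset.mem_filter.2 ⟨H.down_mem v h1 i hiA hd, ?_⟩
    rw [down_ne (Ne.symm hiq)]; exact h2
  · intro v hv i hi
    obtain ⟨h1, h2⟩ := Finset.mem_filter.1 hv
    by_cases hiq : i = q
    · subst hiq; simpa using h2
    · rw [Function.update_of_ne hiq]
      refine H.frozen v h1 i fun hA => hi (Finset.mem_erase.2 ⟨hiq, hA⟩)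
  · intro v hv i hi hd
    obtain ⟨hiq, hiA⟩ := Finset.mem_erase.1 hi
    rw [Function.update_of_ne hiq]
    exact H.dep_zero v (Finset.mem_filter.1 hv).1 i hiA hd
  · intro v hv i hi hd
    exact H.dep_par v (Finset.mem_filter.1 hv).1 i (Finset.mem_erase.1 hi).2 hd

theorem ZZ_cpx (H : Cpx D A X r) {q : ι} (hq : q ∈ A) {b : ℕ} (hb : 1 ≤ b) {Q : V}
    (hQ : D.dep q Q = b) (hr : Function.update r q Q ∈ X) :
    Cpx D A (ZZ D q b X Q) r := by
  constructor
  · have hY : Function.update r q Q ∈ YY q X Q := Finset.mem_filter.2 ⟨hr, by simp⟩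
    refine mem_ZZ.2 ⟨_, hY, b - 1, by omega, ?_⟩
    have hb' : b - 1 + 1 = b := by omega
    rw [hb']
    obtain ⟨h1, h2⟩ := col H hq hQ hY b le_rfl
    have h3 := H.dep_zero _ h1 q hq (by rw [Function.update_self]; omega)
    rw [Function.update_self] at h3
    rw [h3, Function.update_idem]
    exact Function.update_eq_self q r
  · exact H.root_dep
  · intro v hv i hi hd
    obtain ⟨u, hu, j, hj, rfl⟩ := mem_ZZ.1 hv
    obtain ⟨h1, h2⟩ := col H hq hQ hu (j + 1) hj
    by_cases hiq : i = q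
    · subst hiq
      rw [Function.update_self] at hd
      refine mem_ZZ.2 ⟨u, hu, j + 1, by omega, ?_⟩
      unfold Dat.down
      rw [Function.update_self, Function.update_idem, ← Function.iterate_succ_apply' (D.par i)]
    · rw [Function.update_of_ne hiq] at hd
      obtain ⟨hu1, hu2⟩ := Finset.mem_filter.1 hu
      refine mem_ZZ.2 ⟨D.down i u, ?_, j, hj, ?_⟩
      · refine Finset.mem_filter.2 ⟨H.down_mem u hu1 i hi hd, ?_⟩
        rw [down_ne (Ne.symm hiq)]; exact hu2
      · unfold Dat.down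
        rw [Function.update_of_ne hiq]
        exact Function.update_comm hiq _ _ _
  · intro v hv i hi
    exact H.frozen v (ZZ_sub H hq hQ hv).1 i hi
  · intro v hv i hi hd
    exact H.dep_zero v (ZZ_sub H hq hQ hv).1 i hi hd
  · intro v hv i hi hd
    exact H.dep_par v (ZZ_sub H hq hQ hv).1 i hi hd

end

theorem pieces : TaskPieces.{u, v} := by
  intro ι V _ _ _ D A X r _ H q b hq hb _
  refine ⟨Xlt_cpx H hq hb, fun Q hQ => (upd_mem H hQ).2, fun Q hQ => YY_cpx H (upd_mem H hQ).1,
    fun Q hQ => ZZ_cpx H hq hb (upd_mem H hQ).2 (upd_mem H hQ).1, ?_, ?_⟩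
  · intro Q hQ v hv
    exact Finset.mem_filter.2 (ZZ_sub H hq (upd_mem H hQ).2 hv)
  · intro Q hQ v hv
    refine mem_ZZ.2 ⟨v, hv, 0, by omega, ?_⟩
    unfold Dat.down
    rw [(Finset.mem_filter.1 hv).2]
    rfl

end Pool.Agent.W828.ZS
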